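import Pool.Agent.H13.DfaB

namespace Pool.Agent.Results.MP_91d3dc_co.Exp
open Finset Filter Pool.Agent.H13.Dfa

theorem result (ε : ℝ) (hε : 0 < ε) : ∀ᶠ k : ℕ in atTop,
    ∀ (δ : Fin (k ^ 2) → Fin k → Fin (k ^ 2)) (r : Fin (k ^ 2))
      (π : Fin (k ^ 2) → Equiv.Perm (Fin k)),
      ({w : List (Fin k) | w.length = k ∧ w.Nodup ∧
        (cost δ (fun v t => (π v t : ℕ) + 1) r w : ℝ) ≤
          (k : ℝ) ^ 2 / 2 - (k : ℝ) ^ (1.7 : ℝ)}.ncard : ℝ) ≤ ε * k.factorial := by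
  filter_upwards [core ε hε, eventually_ge_atTop 1] with k hk h1 δ r π
  have h := hk (Fin (k ^ 2)) (by simp) δ (fun v t => (π v t : ℕ) + 1) (fun v t => (π v t).2)
    (fun v => perm_sum _ (π v).bijective) r
  refine le_trans ?_ h
  have hk1 : (1:ℝ) ≤ k := by exact_mod_cast h1
  refine le_trans ?_ (le_mul_of_one_le_left (Nat.cast_nonneg _) hk1)
  rw [← Set.ncard_coe_finset]
  apply Nat.cast_le.2
  apply Set.ncard_le_ncard _ (Finset.finite_toSet _)
  rintro w ⟨a1, a2, a3⟩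
  simp only [coe_filter, Set.mem_setOf_eq]
  have := mem_ords w univ a2 (fun x _ => mem_univ x)
  rw [a1] at this
  exact ⟨this, a3⟩

end Pool.Agent.Results.MP_91d3dc_co.Exp
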